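import Pool.Agent.Helper1.RK.StF

/-!
# Project RK (MP_de00bc_nt), part F: RS1
-/

set_option autoImplicit false

namespace Pool.Agent.Helper48.RK

open Pool.Agent.Helper1.RK

/-- the total degree of a nonzero partial derivative is smaller -/
theorem totalDegree_pderiv_lt' {F : Type} [Field F] {I : Type} (i : I) (Q : MvPolynomial I F)
    (h : MvPolynomial.pderiv i Q ≠ 0) :
    (MvPolynomial.pderiv i Q).totalDegree < Q.totalDegree := by
  obtain ⟨m, hm, hdeg⟩ : ∃ m ∈ (MvPolynomial.pderiv i Q).support,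
      (MvPolynomial.pderiv i Q).totalDegree = m.sum fun _ e => e := by
    have hne : (MvPolynomial.pderiv i Q).support.Nonempty :=
      Finset.nonempty_iff_ne_empty.2 (fun h0 => h (MvPolynomial.support_eq_empty.1 h0))
    obtain ⟨m, hm, hm2⟩ := Finset.exists_mem_eq_sup _ hne (fun s : I →₀ ℕ => s.sum fun _ e => e)
    exact ⟨m, hm, hm2⟩
  rw [hdeg]
  have hc : MvPolynomial.coeff m (MvPolynomial.pderiv i Q) ≠ 0 := MvPolynomial.mem_support_iff.1 hm
  rw [MvPolynomial.coeff_pderiv] at hc
  have hc2 : MvPolynomial.coeff (m + Finsupp.single i 1) Q ≠ 0 := left_ne_zero_of_mul hc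
  have hle := MvPolynomial.le_totalDegree (MvPolynomial.mem_support_iff.2 hc2)
  have hs : (m + Finsupp.single i 1).sum (fun _ e => e) = m.sum (fun _ e => e) + 1 := by
    rw [Finsupp.sum_add_index' (fun _ => rfl) (fun _ _ _ => rfl), Finsupp.sum_single_index rfl]
  omega

/-- a polynomial whose partial derivatives in the other variables vanish is a polynomial in the
variable `i` -/
theorem one_var {F : Type} [Field F] [CharZero F] {I : Type} (i : I) (Q : MvPolynomial I F)
    (h : ∀ y, y ≠ i → MvPolynomial.pderiv y Q = 0) :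
    ∃ q : Polynomial F, Polynomial.aeval (MvPolynomial.X i : MvPolynomial I F) q = Q := by
  classical
  have key : ∀ m ∈ Q.support, m = Finsupp.single i (m i) := by
    intro m hm
    ext y
    rcases eq_or_ne y i with rfl | hy
    · rw [Finsupp.single_eq_same]
    · rw [Finsupp.single_eq_of_ne hy]
      by_contra h0
      have h1 : m - Finsupp.single y 1 + Finsupp.single y 1 = m := by
        apply tsub_add_cancel_of_le
        rw [Finsupp.single_le_iff]
        omega
      have h2 := MvPolynomial.coeff_pderiv (i := y) Q (m - Finsupp.single y 1)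
      rw [h y hy, h1, MvPolynomial.coeff_zero] at h2
      have h3 : (((m - Finsupp.single y 1 : I →₀ ℕ) y : ℕ) : F) + 1 ≠ 0 :=
        Nat.cast_add_one_ne_zero _
      exact MvPolynomial.mem_support_iff.1 hm ((mul_eq_zero.1 h2.symm).resolve_right h3)
  refine ⟨∑ m ∈ Q.support, Polynomial.monomial (m i) (MvPolynomial.coeff m Q), ?_⟩
  rw [map_sum]
  conv_rhs => rw [Q.as_sum]
  apply Finset.sum_congr rfl
  intro m hm
  rw [Polynomial.aeval_monomial, MvPolynomial.algebraMap_eq,
    MvPolynomial.C_mul_X_pow_eq_monomial, ← key m hm]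

theorem pRS1 : StRS1 := by
  intro F _ _ I i P Q hQ h
  obtain ⟨Q', P', g, hrel, hQ', hP'⟩ :=
    UniqueFactorizationMonoid.exists_reduced_factors Q hQ P
  have hg : g ≠ 0 := by
    rintro rfl
    exact hQ (by rw [← hQ', zero_mul])
  have hQ0 : Q' ≠ 0 := by
    rintro rfl
    exact hQ (by rw [← hQ', mul_zero])
  have hkey : ∀ y, y ≠ i → MvPolynomial.pderiv y P' * Q' = P' * MvPolynomial.pderiv y Q' := by
    intro y hy
    have h1 := h y hy
    rw [← hQ', ← hP', MvPolynomial.pderiv_mul, MvPolynomial.pderiv_mul] at h1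
    have h2 : g ^ 2 * (MvPolynomial.pderiv y P' * Q') = g ^ 2 * (P' * MvPolynomial.pderiv y Q') := by
      linear_combination h1
    exact mul_left_cancel₀ (pow_ne_zero 2 hg) h2
  have hQd : ∀ y, y ≠ i → MvPolynomial.pderiv y Q' = 0 := by
    intro y hy
    by_contra hne
    have hd : Q' ∣ P' * MvPolynomial.pderiv y Q' := ⟨MvPolynomial.pderiv y P', by
      rw [← hkey y hy, mul_comm]⟩
    have hd2 : Q' ∣ MvPolynomial.pderiv y Q' := hrel.dvd_of_dvd_mul_left hd
    have h3 := MvPolynomial.totalDegree_le_of_dvd_of_isDomain hd2 hne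
    have h4 := totalDegree_pderiv_lt' y Q' hne
    omega
  have hPd : ∀ y, y ≠ i → MvPolynomial.pderiv y P' = 0 := by
    intro y hy
    have h1 := hkey y hy
    rw [hQd y hy, mul_zero] at h1
    exact (mul_eq_zero.1 h1).resolve_right hQ0
  obtain ⟨q, hq⟩ := one_var i Q' hQd
  obtain ⟨p, hp⟩ := one_var i P' hPd
  refine ⟨p, q, ?_, ?_⟩
  · rintro rfl
    exact hQ0 (by rw [← hq, map_zero])
  · rw [hq, hp, ← hQ', ← hP']
    ring

end Pool.Agent.Helper48.RK
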